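import Mathlib

/-!
# Double counting over scales
-/

set_option autoImplicit false

namespace Pool.Agent.Q311.SP

open Finset Filter Topology

open Classical in
/-- If at all large `k` at most `B` elements of any finite set of pairs in range are bad, then at most
`B / θ` elements are bad at more than `θ K` of the `k < K` for all large `K`. -/
theorem count_scales {α : Type*} (bad : ℕ → α → Prop) (B θ : ℝ) (hθ : 0 < θ) (E : Finset α)
    (h1 : ∃ k₁ : ℕ, ∀ k ≥ k₁, ((E.filter (bad k)).card : ℝ) ≤ B)
    (h2 : ∀ L ∈ E, ∃ K₀ : ℕ, ∀ K ≥ K₀, θ * K ≤ ({k : ℕ | k < K ∧ bad k L}.ncard : ℝ)) :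
    (E.card : ℝ) ≤ B / θ := by
  obtain ⟨k₁, h1⟩ := h1
  choose! K₀ hK₀ using h2
  have hB : 0 ≤ B := le_trans (Nat.cast_nonneg _) (h1 k₁ le_rfl)
  have key : ∀ K : ℕ, E.sup K₀ ≤ K → (E.card : ℝ) * (θ * K) ≤ k₁ * E.card + K * B := by
    intro K hK
    have e1 : ∀ L, ({k : ℕ | k < K ∧ bad k L}.ncard : ℝ) =
        ∑ k ∈ Finset.range K, (if bad k L then (1 : ℝ) else 0) := by
      intro L
      rw [Finset.sum_boole]
      congr 1
      rw [← Set.ncard_coe_finset]
      congr 1
      ext k
      simp
    calc (E.card : ℝ) * (θ * K) = ∑ L ∈ E, θ * K := by rw [Finset.sum_const, nsmul_eq_mul]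
      _ ≤ ∑ L ∈ E, ∑ k ∈ Finset.range K, (if bad k L then (1 : ℝ) else 0) := by
          refine Finset.sum_le_sum fun L hL => ?_
          rw [← e1]
          exact hK₀ L hL K ((Finset.le_sup hL).trans hK)
      _ = ∑ k ∈ Finset.range K, ∑ L ∈ E, (if bad k L then (1 : ℝ) else 0) := Finset.sum_comm
      _ = ∑ k ∈ Finset.range K, ((E.filter (bad k)).card : ℝ) := by
          refine Finset.sum_congr rfl fun k _ => ?_
          rw [Finset.sum_boole]
      _ ≤ ∑ k ∈ Finset.range K, ((if k < k₁ then (E.card : ℝ) else 0) + B) := by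
          refine Finset.sum_le_sum fun k _ => ?_
          by_cases hk : k < k₁
          · rw [if_pos hk]
            have : ((E.filter (bad k)).card : ℝ) ≤ E.card := by
              exact_mod_cast Finset.card_filter_le _ _
            linarith
          · rw [if_neg hk, zero_add]
            exact h1 k (not_lt.1 hk)
      _ = (∑ k ∈ Finset.range K, (if k < k₁ then (E.card : ℝ) else 0)) + K * B := by
          rw [Finset.sum_add_distrib, Finset.sum_const, Finset.card_range, nsmul_eq_mul]
      _ ≤ k₁ * E.card + K * B := by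
          have : (∑ k ∈ Finset.range K, (if k < k₁ then (E.card : ℝ) else 0)) ≤ k₁ * E.card := by
            rw [← Finset.sum_filter, Finset.sum_const, nsmul_eq_mul]
            refine mul_le_mul_of_nonneg_right ?_ (Nat.cast_nonneg _)
            have : (Finset.range K).filter (fun k => k < k₁) ⊆ Finset.range k₁ := by
              intro k hk
              rw [Finset.mem_filter] at hk
              exact Finset.mem_range.2 hk.2
            have := Finset.card_le_card this
            rw [Finset.card_range] at this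
            exact_mod_cast this
          linarith
  rw [le_div_iff₀ hθ]
  by_contra hcon
  push Not at hcon
  set d := (E.card : ℝ) * θ - B with hd
  have hd0 : 0 < d := by rw [hd]; linarith
  obtain ⟨n, hn⟩ := exists_nat_gt (k₁ * (E.card : ℝ) / d)
  have h3 := key (max n (E.sup K₀)) (le_max_right _ _)
  have h4 : (n : ℝ) ≤ ((max n (E.sup K₀) : ℕ) : ℝ) := by exact_mod_cast le_max_left _ _
  have h5 : k₁ * (E.card : ℝ) < n * d := by rwa [div_lt_iff₀ hd0] at hn
  have h6 : ((max n (E.sup K₀) : ℕ) : ℝ) * d ≤ k₁ * (E.card : ℝ) := by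
    rw [hd]; linarith
  nlinarith

/-- a set all of whose finite subsets have at most `B` elements -/
theorem ncard_of_finset {α : Type*} (S : Set α) (B : ℝ)
    (h : ∀ E : Finset α, (∀ L ∈ E, L ∈ S) → (E.card : ℝ) ≤ B) : S.Finite ∧ (S.ncard : ℝ) ≤ B := by
  have hfin : S.Finite := by
    by_contra hinf
    obtain ⟨n, hn⟩ := exists_nat_gt B
    obtain ⟨t, ht, htc⟩ := Set.Infinite.exists_subset_card_eq hinf n
    have := h t (fun L hL => ht hL)
    rw [htc] at this
    linarith
  refine ⟨hfin, ?_⟩
  rw [Set.ncard_eq_toFinset_card S hfin]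
  exact h _ fun L hL => by simpa using hL

/-- `X ^ (1 - η) ≤ δ X / log X` for large `X` -/
theorem rpow_le_of_dens (δ η : ℝ) (hδ : 0 < δ) (hη : 0 < η) :
    ∀ᶠ X : ℕ in atTop, (X : ℝ) ^ (1 - η) ≤ δ * (X / Real.log X) := by
  have h1 : ∀ᶠ x : ℝ in atTop, ‖Real.log x‖ ≤ δ * ‖x ^ η‖ :=
    (isLittleO_log_rpow_atTop hη).def hδ
  filter_upwards [tendsto_natCast_atTop_atTop.eventually h1, eventually_ge_atTop 2] with X hX hX2
  have hX0 : (0 : ℝ) < X := by positivity
  have hl : 0 < Real.log X := Real.log_pos (by exact_mod_cast hX2)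
  rw [Real.norm_of_nonneg hl.le, Real.norm_of_nonneg (Real.rpow_nonneg hX0.le _)] at hX
  rw [Real.rpow_sub hX0, Real.rpow_one, mul_div_assoc', div_le_div_iff₀ (Real.rpow_pos_of_pos hX0 _) hl]
  nlinarith

end Pool.Agent.Q311.SP
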